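import Pool.Agent.Lib_helper28.OX.Y6b
import Pool.Agent.Lib_helper22.OX.EMb
import Pool.Agent.Lib_helper51.OK5.Core

/-!
# Six colours, (c1): the clone set, the emerald, and the residue 2
-/

set_option autoImplicit false
set_option linter.unusedSectionVars false
set_option linter.unusedVariables false

open scoped Classical
open Finset
open Pool.Agent.O2 (PC Cb CrOn pr ms dg nd addE)
open Pool.Agent.O3 (con hit Clq Non)
open Pool.Agent.OW28 (NoCE Add1)
open Pool.Agent.OW
open Pool.Agent.OW.S5 (PS Tgt)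
open Pool.Agent.OX25 (T6)
open Pool.Agent.OX28
open Pool.Agent.OX22

namespace Pool.Agent.OX63

variable {V : Type} {G : SimpleGraph V} {S : Finset V}

/-- at most three low vertices in a `6`-clique -/
theorem low3 (h : Cex G S 6 b6) (hr : (S.card - 1) % 6 ≠ 5) :
    ∀ T ⊆ S, Clq G T → T.card = 6 → (T.filter fun t => dg G S t = 6).card ≤ 3 := by
  intro T hT hq hk
  have hlt : (S.card - 1) % 6 < 6 := Nat.mod_lt _ (by omega)
  have := low_le Nm6 h (by omega) hT hq hk
  omega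

/-- no `6`-clique of small degree off a low clique with three or four vertices -/
theorem em6 (h : Cex G S 6 b6) (hr : (S.card - 1) % 6 ≠ 5) {R T : Finset V} {j : ℕ}
    (hRS : R ⊆ S) (hM : LowClq G S (S \ R) 6 j) (hj : j = 3 ∨ j = 4) (hT : T ⊆ R)
    (hk : T.card = 6) (hq : Clq G T) (hd : ∀ t ∈ T, dg G R t ≤ 6) : False := by
  obtain ⟨h1, h2, h3⟩ := hM
  have e : S \ (S \ R) = R := Finset.sdiff_sdiff_eq_self hRS
  refine EM (K := 6) h.cr (by omega) (add_one Nm6 h) (noBig_of_NoCE (by omega) (no_ce Nm6 h))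
    (low3 h hr) (M := S \ R) (T := T) sdiff_subset h2 h3 (by omega) ?_ hk hq ?_
  · rw [e]; exact hT
  · rw [e]; exact hd

/-- the emerald in a tight clone set -/
theorem emerald6 (h : Cex G S 6 b6) {v x : V} {R : Finset V}
    (hR : R ⊆ S.erase v) (hv : v ∈ S) (hcr : CrOn (clo G S v x) (insert v R) 6)
    (hdf : df (clo G S v x) 6 (insert v R) = b6 R.card) (hm : (R.card - 1) % 6 = 5)
    (hc : 7 ≤ R.card) (hlt : R.card + 1 < S.card) :
    ∃ Q ⊆ R, Q.card = 6 ∧ Clq G Q ∧ ∀ t ∈ Q, dg (clo G S v x) (insert v R) t = 6 := by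
  have hvR : v ∉ R := fun h' => (mem_erase.1 (hR h')).1 rfl
  have hcard : (insert v R).card = R.card + 1 := card_insert_of_notMem hvR
  have hT : Tgt 6 b6 (clo G S v x) (insert v R) := by
    refine ⟨hcr, ?_, ?_⟩
    · rw [hcard]
      omega
    · unfold Yy
      rw [hdf, hcard, Nat.add_sub_cancel]
      ring
  have ih : IH 6 b6 ((insert v R).card + 1) := by
    intro V' G' S' h1 h2
    exact h.ih V' G' S' h1 (by omega)
  obtain ⟨Q, hQ, hQc, hQq, hQd⟩ := Pool.Agent.OX25.lemmaT6 T6_6 ih hT (mem_insert_self v R) (by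
    intro R' hR' hY
    by_contra hvR'
    have hsub : R' ⊆ R := by
      intro a ha
      rcases mem_insert.1 (hR'.sub ha) with h1 | h1
      · exact absurd (h1 ▸ ha) hvR'
      · exact h1
    have hd : 6 ∣ R'.card - 1 := by
      by_contra hd
      have h1 := (Pool.Agent.OX25.tgap6 T6_6 ih hT hR').2 hd
      push_cast at h1
      linarith
    have hc' := Pool.Agent.OX25.small_card hR' hd
    have hYe : Yy (clo G S v x) 6 b6 R' = Yy G 6 b6 R' := by
      unfold Yy df
      rw [clo_pr hvR']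
    have h4 := Y_four Nm6 h R' (hsub.trans (hR.trans (erase_subset _ _)))
      (fun e => hvR' (e ▸ hv)) hc'
    rw [hYe] at hY
    linarith)
  have hQR : Q ⊆ R := by
    intro a ha
    obtain ⟨h1, h2⟩ := mem_erase.1 (hQ ha)
    exact (mem_insert.1 h2).resolve_left h1
  refine ⟨Q, hQR, hQc, ?_, hQd⟩
  intro a ha b hb hab
  have hav : a ≠ v := fun e => hvR (e ▸ hQR ha)
  have hbv : b ≠ v := fun e => hvR (e ▸ hQR hb)
  exact (clo_adj hav hbv).1 (hQq a ha b hb hab)

/-- a clique of small degree in the clone graph does not meet the neighbours of the clone -/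
theorem clq_free {K : ℕ} {v x : V} {R T : Finset V} (hvR : v ∉ R) (hxR : x ∈ R)
    (hcn : cn G S v x ⊆ R) (hT : T ⊆ R) (hTc : T.card = K)
    (hq : Clq G T) (hTd : ∀ t ∈ T, dg (clo G S v x) (insert v R) t = K)
    (hno : ¬ Clq G (cn G S v x)) :
    (∀ t ∈ T, t ∉ cn G S v x) ∧ ∀ t ∈ T, dg G R t = K := by
  have hxc : x ∈ cn G S v x := Pool.Agent.OW.mem_cn.2 (Or.inl rfl)
  have key1 : ∀ t ∈ T, t ∈ cn G S v x → ∀ y ∈ R, G.Adj t y → y ∈ T := by
    intro t ht htc y hy hty
    have h1 := (Pool.Agent.OK5.clo_dg_mem hvR (hT ht) (hTd t ht)).1 htc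
    have h2 : T.erase t = R.filter fun y => G.Adj t y := by
      apply eq_of_subset_of_card_le
      · intro a ha
        obtain ⟨ha1, ha2⟩ := mem_erase.1 ha
        exact mem_filter.2 ⟨hT ha2, hq t ht a ha2 ha1.symm⟩
      · rw [card_erase_of_mem ht, hTc]
        have h3 : dg G R t = (R.filter fun y => G.Adj t y).card := rfl
        omega
    have h3 : y ∈ R.filter fun y => G.Adj t y := mem_filter.2 ⟨hy, hty⟩
    rw [← h2] at h3
    exact mem_of_mem_erase h3
  have hTcn : ∀ t ∈ T, t ∉ cn G S v x := by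
    intro t ht htc
    have hxT : x ∈ T := by
      rcases Pool.Agent.OW.mem_cn.1 htc with h1 | h1
      · rw [← h1]; exact ht
      · exact key1 t ht htc x hxR h1.2.2.symm
    apply hno
    intro a ha b hb hab
    have hsub : ∀ c ∈ cn G S v x, c ∈ T := by
      intro c hc
      rcases Pool.Agent.OW.mem_cn.1 hc with h1 | h1
      · rw [h1]; exact hxT
      · exact key1 x hxT hxc c (hcn hc) h1.2.2
    exact hq a (hsub a ha) b (hsub b hb) hab
  exact ⟨hTcn, fun t ht => (Pool.Agent.OK5.clo_dg_mem hvR (hT ht) (hTd t ht)).2 (hTcn t ht)⟩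

/-- the hypotheses of (c1) -/
structure P1 (G : SimpleGraph V) (S : Finset V) (x v : V) : Prop where
  hx : x ∈ S
  low : dg G S x = 6
  hv : v ∈ S
  ad : G.Adj x v
  nt : ¬ Tw G S x v
  hd : dg G S v ≤ 6 + (tws G S x).card
  ho : dg G S v = 6 → (tws G S v).card ≤ (tws G S x).card

/-- a clone set -/
structure Cs (G : SimpleGraph V) (S : Finset V) (x v : V) (R : Finset V) : Prop where
  sub : R ⊆ S.erase v
  cn : cn G S v x ⊆ R
  card : 7 ≤ R.card
  lt : R.card + 1 < S.card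
  cr : CrOn (clo G S v x) (insert v R) 6
  dfc : df (clo G S v x) 6 (insert v R) = df G 6 R - 5
  dfR : df G 6 R ≤ b6 R.card + 5

theorem clone6 (h : Cex G S 6 b6) {x v : V} (p : P1 G S x v) :
    Clq G (Pool.Agent.OW.cn G S v x) ∨ ∃ R, Cs G S x v R := by
  obtain ⟨hx, hlow, hv, hxv, htw, hd, hord⟩ := p
  have hxt : x ∉ tws G S x := by
    intro h1
    unfold tws at h1
    exact (mem_filter.1 h1).2.1 rfl
  have hcard : (insert x (tws G S x)).card = (tws G S x).card + 1 := card_insert_of_notMem hxt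
  have hcs := clone_set (C := insert x (tws G S x)) h (by omega) ?_ (mem_insert_self _ _) hlow
    ?_ hv ?_ hxv ?_ ?_
  · rcases hcs with h1 | ⟨R, h1, h2, h3, h4, h5, h6, h7⟩
    · exact Or.inl h1
    · right
      refine ⟨R, h1, h2, h3, h4, h5, ?_, ?_⟩
      · rw [h6]; push_cast; ring
      · push_cast at h7
        linarith
  · intro c hc
    rcases mem_insert.1 hc with rfl | hc
    · exact hx
    · exact (mem_filter.1 hc).1
  · intro c hc hne
    rcases mem_insert.1 hc with rfl | hc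
    · exact absurd rfl hne
    · exact (mem_filter.1 hc).2.2
  · intro hc
    rcases mem_insert.1 hc with rfl | hc
    · exact hxv.ne rfl
    · exact htw (mem_filter.1 hc).2.2
  · omega
  · intro hd'
    have := hord hd'
    omega

theorem Cs.RS {x v : V} {R : Finset V} (c : Cs G S x v R) : R ⊆ S :=
  c.sub.trans (erase_subset _ _)

theorem Cs.vR {x v : V} {R : Finset V} (c : Cs G S x v R) : v ∉ R :=
  fun h' => (mem_erase.1 (c.sub h')).1 rfl

theorem Cs.ne {x v : V} {R : Finset V} (c : Cs G S x v R) : R ≠ S := by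
  rintro rfl
  have := c.lt
  omega

theorem Cs.xR {x v : V} {R : Finset V} (c : Cs G S x v R) : x ∈ R :=
  c.cn (Pool.Agent.OW.mem_cn.2 (Or.inl rfl))

/-- the bound on a clone set, by residues -/
theorem Cs.bound {x v : V} {R : Finset V} (c : Cs G S x v R) :
    ((R.card - 1) % 6 = 0 → Yy G 6 b6 R ≤ 2) ∧ ((R.card - 1) % 6 = 1 → Yy G 6 b6 R ≤ 2) ∧
    ((R.card - 1) % 6 = 2 → Yy G 6 b6 R ≤ 4) ∧ ((R.card - 1) % 6 = 3 → Yy G 6 b6 R ≤ 6) ∧
    ((R.card - 1) % 6 = 4 → Yy G 6 b6 R ≤ 8) ∧ ((R.card - 1) % 6 = 5 → Yy G 6 b6 R ≤ 10) := by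
  have h1 := c.dfR
  have h2 := c.card
  have e : R.card = R.card - 1 + 1 := by omega
  have key : ∀ m : ℕ, (m % 6 = 0 → b6 (m + 1) + 5 ≤ b6 m + 2) ∧
      (m % 6 = 1 → b6 (m + 1) + 5 ≤ b6 m + 2) ∧ (m % 6 = 2 → b6 (m + 1) + 5 ≤ b6 m + 4) ∧
      (m % 6 = 3 → b6 (m + 1) + 5 ≤ b6 m + 6) ∧ (m % 6 = 4 → b6 (m + 1) + 5 ≤ b6 m + 8) ∧
      (m % 6 = 5 → b6 (m + 1) + 5 ≤ b6 m + 10) := by
    intro m
    unfold b6 v6
    refine ⟨?_, ?_, ?_, ?_, ?_, ?_⟩ <;>
    · intro hm
      split_ifs <;> omega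
  obtain ⟨k0, k1, k2, k3, k4, k5⟩ := key (R.card - 1)
  rw [← e] at k0 k1 k2 k3 k4 k5
  unfold Yy
  refine ⟨fun g => ?_, fun g => ?_, fun g => ?_, fun g => ?_, fun g => ?_, fun g => ?_⟩
  · have := k0 g; linarith
  · have := k1 g; linarith
  · have := k2 g; linarith
  · have := k3 g; linarith
  · have := k4 g; linarith
  · have := k5 g; linarith

theorem b6_next (m : ℕ) (h : m % 6 = 5) : b6 (m + 1) = b6 m + 5 := by
  unfold b6 v6
  split_ifs <;> omega

/-- a clone set with the largest `Y` has an emerald -/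
theorem Cs.emerald (h : Cex G S 6 b6) {x v : V} {R : Finset V} (p : P1 G S x v)
    (c : Cs G S x v R) (hno : ¬ Clq G (Pool.Agent.OW.cn G S v x))
    (hm : (R.card - 1) % 6 = 5) (hY : 10 ≤ Yy G 6 b6 R) :
    ∃ T ⊆ R, T.card = 6 ∧ Clq G T ∧ (∀ t ∈ T, t ∉ Pool.Agent.OW.cn G S v x) ∧
      ∀ t ∈ T, dg G R t = 6 := by
  have h1 := (c.bound).2.2.2.2.2 hm
  have h2 := c.card
  have e : R.card - 1 + 1 = R.card := by omega
  have h3 := b6_next _ hm
  rw [e] at h3
  have h4 : df (clo G S v x) 6 (insert v R) = b6 R.card := by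
    rw [c.dfc]
    unfold Yy at hY h1
    linarith
  obtain ⟨Q, hQ, hQc, hQq, hQd⟩ := emerald6 h c.sub p.hv c.cr h4 hm c.card c.lt
  obtain ⟨h5, h6⟩ := clq_free c.vR c.xR c.cn hQ hQc hQq hQd hno
  exact ⟨Q, hQ, hQc, hQq, h5, h6⟩

/-- (c1), residue 2 -/
theorem c1_r2 (h : Cex G S 6 b6) (hr : (S.card - 1) % 6 = 2) {x v : V} (p : P1 G S x v) :
    Clq G (Pool.Agent.OW.cn G S v x) := by
  by_contra hno
  rcases clone6 h p with h1 | ⟨R, c⟩
  · exact hno h1
  obtain ⟨b0, b1, b2, b3, b4, b5⟩ := c.bound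
  have ht := tab_r2 h hr R c.RS c.ne c.card
  have hlt : (R.card - 1) % 6 < 6 := Nat.mod_lt _ (by omega)
  have h5 : (R.card - 1) % 6 = 5 := by
    by_contra hn
    have hcase : (R.card - 1) % 6 = 0 ∨ (R.card - 1) % 6 = 1 ∨ (R.card - 1) % 6 = 2 ∨
      (R.card - 1) % 6 = 3 ∨ (R.card - 1) % 6 = 4 := by omega
    rcases hcase with g | g | g | g | g
    · rw [g] at ht
      have := b0 g
      have e : r2 0 = 4 := by decide
      linarith
    · rw [g] at ht
      have := b1 g
      have e : r2 1 = 4 := by decide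
      linarith
    · have h1 := eight_r2 h hr c.RS c.ne c.card g
      have := b2 g
      linarith
    · rw [g] at ht
      have := b3 g
      have e : r2 3 = 10 := by decide
      linarith
    · rw [g] at ht
      have := b4 g
      have e : r2 4 = 12 := by decide
      linarith
  have hY := b5 h5
  have hY' : 10 ≤ Yy G 6 b6 R := by
    rw [h5] at ht
    have e : r2 5 = 10 := by decide
    linarith
  obtain ⟨T, hT, hTc, hTq, -, hTd⟩ := c.emerald h p hno h5 hY'
  exact em6 h (by omega) c.RS (low_r2_5 h hr c.RS c.ne c.card h5 hY) (Or.inl rfl) hT hTc hTq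
    (fun t ht => (hTd t ht).le)

end Pool.Agent.OX63
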