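import Pool.Agent.Lib_helper63.OX.C1a

/-!
# Six colours, residue 3: two edges can be added, and no low clique with five vertices
-/

set_option autoImplicit false
set_option linter.unusedSectionVars false
set_option linter.unusedVariables false

open scoped Classical
open Finset
open Pool.Agent.O2 (PC Cb CrOn pr ms dg nd addE)
open Pool.Agent.O3 (con hit Clq Non)
open Pool.Agent.OW28 (NoCE Add1)
open Pool.Agent.OW
open Pool.Agent.OX28
open Pool.Agent.OX22

namespace Pool.Agent.OX63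

variable {V : Type} {G : SimpleGraph V} {S : Finset V}

/-- a small proper subset is the complement of a low triangle -/
theorem small4 (h : Cex G S 6 b6) (hr : (S.card - 1) % 6 = 3) {X : Finset V} (hX : X ⊆ S)
    (hne : X ≠ S) (hc : 7 ≤ X.card) (hY : Yy G 6 b6 X ≤ 4) : LowClq G S (S \ X) 6 3 := by
  have h1 := tab_r3 h hr X hX hne hc
  have hlt : (X.card - 1) % 6 < 6 := Nat.mod_lt _ (by omega)
  have h0 : (X.card - 1) % 6 = 0 := by
    by_contra hn
    have hcase : (X.card - 1) % 6 = 1 ∨ (X.card - 1) % 6 = 2 ∨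
      (X.card - 1) % 6 = 3 ∨ (X.card - 1) % 6 = 4 ∨ (X.card - 1) % 6 = 5 := by omega
    have key : ∀ p, p = 1 ∨ p = 2 ∨ p = 3 ∨ p = 4 ∨ p = 5 → 6 ≤ r3 p := by
      rintro p (rfl | rfl | rfl | rfl | rfl) <;> decide
    have := key _ hcase
    linarith
  exact low_r3_0 h hr hX hne hc h0 hY

/-- any two edges can be added to a set which misses four vertices -/
theorem ae2_cb (h : Cex G S 6 b6) (hr : (S.card - 1) % 6 = 3) {X : Finset V} (hX : X ⊆ S)
    (hc : X.card + 4 ≤ S.card) {F : Finset (V × V)} (hF : F.card ≤ 2) :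
    Cb (addE G F) X 6 := by
  by_contra hn
  have hne : X ≠ S := by rintro rfl; omega
  obtain ⟨X', h1, h2, h3, h4, h5, h6⟩ := addE_small h.cr h.ih hX hne hn
  have h7 : ((newE G F X').card : ℤ) ≤ 2 := by
    exact_mod_cast (newE_card_le G F X').trans hF
  have h8 : X' ≠ S := by rintro rfl; exact absurd h4 (lt_irrefl _)
  have h9 := small4 h hr (h1.trans hX) h8 h3 (by linarith)
  have h10 := card_sdiff_add_card_eq_card (h1.trans hX)
  have h11 := card_le_card h1
  have h12 := h9.1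
  omega

theorem ae2 (h : Cex G S 6 b6) (hr : (S.card - 1) % 6 = 3) {X : Finset V} (hX : X ⊆ S)
    (hc : X.card + 4 ≤ S.card) {F : Finset (V × V)} (hF : F.card ≤ 2) :
    ∃ ψ : V → Fin 6, PC G X ψ ∧ ∀ a ∈ X, ∀ b ∈ X, a ≠ b → (a, b) ∈ F → ψ a ≠ ψ b := by
  obtain ⟨ψ, hψ⟩ := (Pool.Agent.O2.cb_fin (by omega)).1 (ae2_cb h hr hX hc hF)
  exact ⟨ψ, fun a ha b hb hab => hψ a ha b hb (Or.inl hab),
    fun a ha b hb hne hab => hψ a ha b hb (Or.inr ⟨hne, Or.inl hab⟩)⟩

/-- a star with two edges can be added -/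
theorem star2 (h : Cex G S 6 b6) (hr : (S.card - 1) % 6 = 3) {X N : Finset V} (hX : X ⊆ S)
    (hc : X.card + 4 ≤ S.card) {p : V} (hp : p ∈ X) (hN : N ⊆ X) (hpN : p ∉ N)
    (hNc : N.card ≤ 2) : ∃ ψ : V → Fin 6, PC G X ψ ∧ ∀ q ∈ N, ψ p ≠ ψ q := by
  obtain ⟨ψ, h1, h2⟩ := ae2 h hr hX hc (F := N.image fun q => (p, q))
    (card_image_le.trans hNc)
  exact ⟨ψ, h1, fun q hq => h2 p hp q (hN hq) (fun e => hpN (e ▸ hq))
    (mem_image.2 ⟨q, hq, rfl⟩)⟩

/-- if `p` always has one of the three colours of `N` then all three edges are new and are in a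
critical set -/
theorem star3 (h : Cex G S 6 b6) (hr : (S.card - 1) % 6 = 3) {X N : Finset V} (hX : X ⊆ S)
    (hc : X.card + 4 ≤ S.card) {p : V} (hp : p ∈ X) (hN : N ⊆ X) (hpN : p ∉ N)
    (hNc : N.card = 3) (hcol : ∀ ψ : V → Fin 6, PC G X ψ → ψ p ∈ N.image ψ) :
    ∃ W ⊆ X, p ∈ W ∧ N ⊆ W ∧ (∀ q ∈ N, ¬ G.Adj p q) ∧ 7 ≤ W.card ∧ Yy G 6 b6 W ≤ 6 ∧
      CrOn (addE G (N.image fun q => (p, q))) W 6 := by
  have hFc : (N.image fun q => (p, q)).card = 3 := by
    rw [card_image_of_injective _ (fun a b h => (Prod.mk.inj h).2), hNc]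
  have hn : ¬ Cb (addE G (N.image fun q => (p, q))) X 6 := by
    intro hcb
    obtain ⟨ψ, hψ⟩ := (Pool.Agent.O2.cb_fin (by omega)).1 hcb
    have h1 := hcol ψ (fun a ha b hb hab => hψ a ha b hb (Or.inl hab))
    obtain ⟨q, hq, hqp⟩ := mem_image.1 h1
    exact hψ p hp q (hN hq) (Or.inr ⟨fun e => hpN (e ▸ hq), Or.inl (mem_image.2 ⟨q, hq, rfl⟩)⟩)
      hqp.symm
  have hne : X ≠ S := by rintro rfl; omega
  obtain ⟨W, h1, h2, h3, h4, h5, h6⟩ := addE_small h.cr h.ih hX hne hn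
  have h8 : W ≠ S := by rintro rfl; exact absurd h4 (lt_irrefl _)
  have h10 := card_sdiff_add_card_eq_card (h1.trans hX)
  have h11 := card_le_card h1
  have h7 : 3 ≤ (newE G (N.image fun q => (p, q)) W).card := by
    by_contra hlt
    have h9 : ((newE G (N.image fun q => (p, q)) W).card : ℤ) ≤ 2 := by
      exact_mod_cast (show (newE G (N.image fun q => (p, q)) W).card ≤ 2 by omega)
    have h12 := (small4 h hr (h1.trans hX) h8 h3 (by linarith)).1
    omega
  have h9 : newE G (N.image fun q => (p, q)) W = N.image fun q => (p, q) :=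
    eq_of_subset_of_card_le (filter_subset _ _) (by omega)
  have hall : ∀ q ∈ N, p ∈ W ∧ q ∈ W ∧ ¬ G.Adj p q := by
    intro q hq
    have h12 : (p, q) ∈ newE G (N.image fun q => (p, q)) W := by
      rw [h9]; exact mem_image.2 ⟨q, hq, rfl⟩
    obtain ⟨-, g1, g2, -, g3⟩ := mem_filter.1 h12
    exact ⟨g1, g2, g3⟩
  obtain ⟨q0, hq0⟩ := card_pos.1 (show 0 < N.card by omega)
  have h12 : ((newE G (N.image fun q => (p, q)) W).card : ℤ) = 3 := by
    rw [h9, hFc]; norm_num
  exact ⟨W, h1, (hall q0 hq0).1, fun q hq => (hall q hq).2.1, fun q hq => (hall q hq).2.2, h3,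
    by linarith, h2⟩

/-- no low clique with five vertices -/
theorem no_low5 (h : Cex G S 6 b6) (hr : (S.card - 1) % 6 = 3) {L : Finset V} (hL : L ⊆ S)
    (hq : Clq G L) (hlow : ∀ m ∈ L, dg G S m = 6) (hc : L.card = 5) : False := by
  have hcard := card_gt Nm6 h
  have hXS : S \ L ⊆ S := sdiff_subset
  have hXc := card_sdiff_add_card_eq_card hL
  have hon : ∀ m ∈ L, (on G S L m).card = 2 := by
    intro m hm
    have h1 := out_card hL hq hm
    rw [hlow m hm, hc] at h1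
    unfold on
    omega
  have honX : ∀ m, on G S L m ⊆ S \ L := fun m => filter_subset _ _
  obtain ⟨m0, hm0⟩ := card_pos.1 (show 0 < L.card by omega)
  by_cases hall : ∀ m ∈ L, on G S L m = on G S L m0
  · -- a clique with five low vertices
    obtain ⟨a, ha⟩ := card_pos.1 (show 0 < (on G S L m0).card by rw [hon m0 hm0]; omega)
    have hal : ∀ m ∈ L, G.Adj m a := by
      intro m hm
      have h1 : a ∈ on G S L m := by rw [hall m hm]; exact ha
      exact (mem_on.1 h1).2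
    have haL : a ∉ L := (mem_on.1 ha).1.2
    have h1 := low3 h (by omega) (insert a L) (insert_subset (mem_on.1 ha).1.1 hL) (by
      intro b hb c hc' hbc
      rcases mem_insert.1 hb with hb | hb
      · rcases mem_insert.1 hc' with hc' | hc'
        · exact absurd (hb.trans hc'.symm) hbc
        · rw [hb]; exact (hal c hc').symm
      · rcases mem_insert.1 hc' with hc' | hc'
        · rw [hc']; exact hal b hb
        · exact hq b hb c hc' hbc) (by rw [card_insert_of_notMem haL, hc])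
    have h2 : L ⊆ (insert a L).filter fun t => dg G S t = 6 := fun m hm =>
      mem_filter.2 ⟨mem_insert_of_mem hm, hlow m hm⟩
    have h3 := card_le_card h2
    omega
  · push Not at hall
    obtain ⟨m, hm, hne⟩ := hall
    obtain ⟨p, hp, hpn⟩ : ∃ p ∈ on G S L m, p ∉ on G S L m0 := by
      by_contra hcon
      push Not at hcon
      exact hne (eq_of_subset_of_card_le hcon (by rw [hon m hm, hon m0 hm0]))
    obtain ⟨ψ, h1, h2⟩ := star2 h hr hXS (by omega) (honX m hp) (honX m0) hpn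
      (by rw [hon m0 hm0])
    obtain ⟨Z, hZ, hZm⟩ := low_clq_col h.cr (by omega) hL hq hlow ⟨m0, hm0⟩ h1
    have h3 : ψ p ∈ Z := by
      rw [← hZm m hm]
      exact mem_image_of_mem ψ hp
    rw [← hZm m0 hm0] at h3
    obtain ⟨q, hq', hqp⟩ := mem_image.1 h3
    exact h2 q hq' hqp.symm

/-- residue 3, sets of residue 4 -/
theorem ten_r3_4 (h : Cex G S 6 b6) (hr : (S.card - 1) % 6 = 3) {R : Finset V} (hR : R ⊆ S)
    (hne : R ≠ S) (hc : 7 ≤ R.card) (hp : (R.card - 1) % 6 = 4) : 10 ≤ Yy G 6 b6 R := by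
  have h1 := Yev Nm6 G (X := R) (card_pos.1 (by omega))
  by_contra hlt
  obtain ⟨h2, h3, h4⟩ := low_r3_4 h hr hR hne hc hp (by omega)
  exact no_low5 h hr sdiff_subset h3 h4 h2

/-- the table for residue 3 -/
theorem tab3 (h : Cex G S 6 b6) (hr : (S.card - 1) % 6 = 3) {R : Finset V} (hR : R ⊆ S)
    (hne : R ≠ S) (hc : 7 ≤ R.card) : 4 ≤ Yy G 6 b6 R ∧
    ((R.card - 1) % 6 = 1 → 6 ≤ Yy G 6 b6 R) ∧ ((R.card - 1) % 6 = 2 → 6 ≤ Yy G 6 b6 R) ∧
    ((R.card - 1) % 6 = 3 → 8 ≤ Yy G 6 b6 R) ∧ ((R.card - 1) % 6 = 4 → 10 ≤ Yy G 6 b6 R) ∧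
    ((R.card - 1) % 6 = 5 → 8 ≤ Yy G 6 b6 R) := by
  have h1 := tab_r3 h hr R hR hne hc
  refine ⟨Y_four Nm6 h R hR hne hc, fun g => ?_, fun g => ?_, eight_r3 h hr hR hne hc,
    ten_r3_4 h hr hR hne hc, fun g => ?_⟩
  · rw [g] at h1
    exact h1
  · rw [g] at h1
    exact h1
  · rw [g] at h1
    exact h1

/-- a clone set for the residue 3 -/
theorem cs_r3 (h : Cex G S 6 b6) (hr : (S.card - 1) % 6 = 3) {x v : V} {R : Finset V}
    (c : Cs G S x v R) : (R.card - 1) % 6 = 5 ∧ 8 ≤ Yy G 6 b6 R ∧ Yy G 6 b6 R ≤ 10 := by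
  obtain ⟨b0, b1, b2, b3, b4, b5⟩ := c.bound
  obtain ⟨t0, t1, t2, t3, t4, t5⟩ := tab3 h hr c.RS c.ne c.card
  have hlt : (R.card - 1) % 6 < 6 := Nat.mod_lt _ (by omega)
  have h5 : (R.card - 1) % 6 = 5 := by
    by_contra hn
    have hcase : (R.card - 1) % 6 = 0 ∨ (R.card - 1) % 6 = 1 ∨ (R.card - 1) % 6 = 2 ∨
      (R.card - 1) % 6 = 3 ∨ (R.card - 1) % 6 = 4 := by omega
    rcases hcase with g | g | g | g | g
    · have := b0 g
      linarith
    · have := b1 g
      linarith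
    · have := b2 g
      have := t2 g
      linarith
    · have := b3 g
      have := t3 g
      linarith
    · have := b4 g
      have := t4 g
      linarith
  exact ⟨h5, t5 h5, b5 h5⟩

end Pool.Agent.OX63
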