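import Pool.Agent.Lib_helper63.OX.C1b

/-!
# Six colours, residue 3: the boundary colours of a clone set with `Y = 10`
-/

set_option autoImplicit false
set_option linter.unusedSectionVars false
set_option linter.unusedVariables false
set_option synthInstance.maxSize 2000

open scoped Classical
open Finset
open Pool.Agent.O2 (PC Cb CrOn pr ms dg nd addE)
open Pool.Agent.O3 (con hit Clq Non)
open Pool.Agent.OW28 (NoCE Add1)
open Pool.Agent.OW
open Pool.Agent.OW.S5
open Pool.Agent.OX28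
open Pool.Agent.OX22

namespace Pool.Agent.OX63

variable {V : Type} {G : SimpleGraph V} {S : Finset V}

/-- a tight piece of residue 0 with one colour has an emerald among the new vertices -/
theorem em_piece (h : Cex G S 6 b6) {R A : Finset V} {ψ : V → Fin 6} {c : Fin 6}
    (hst : Step G S R ψ A {c}) (hRn : R.Nonempty)
    (hlt : (A.disjSum ({c} : Finset (Fin 6))).card < S.card)
    (hres : 6 ∣ (A.disjSum ({c} : Finset (Fin 6))).card - 1)
    (hQ : Yy (con G R ψ) 6 b6 (A.disjSum {c}) = 0) :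
    ∃ Q ⊆ A, Q.card = 6 ∧ Clq G Q ∧
      ∀ t ∈ Q, dg (con G R ψ) (A.disjSum {c}) (Sum.inl t) = 6 := by
  have hT : Tgt 6 b6 (con G R ψ) (A.disjSum ({c} : Finset (Fin 6))) := ⟨hst.cr, hres, hQ⟩
  have ih : IH 6 b6 ((A.disjSum ({c} : Finset (Fin 6))).card + 1) := by
    intro V' G' S' h1 h2
    exact h.ih V' G' S' h1 (by omega)
  obtain ⟨y, hy⟩ := hRn
  have hyA : y ∉ A := fun hyA => (mem_sdiff.1 (hst.hA hyA)).2 hy
  have hz : (Sum.inr c : V ⊕ Fin 6) ∈ A.disjSum ({c} : Finset (Fin 6)) :=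
    inr_mem_disjSum.2 (mem_singleton_self c)
  obtain ⟨Q', hQ', hQc, hQq, hQd⟩ := Pool.Agent.OX25.lemmaT6' T6_6 ih hT hz (by
    intro R' hR' hYR'
    by_contra hcon
    obtain ⟨A', Z₁, rfl⟩ := eq_disjSum R'
    have hZ₁ : Z₁ = ∅ := by
      rw [eq_empty_iff_forall_notMem]
      intro i hi
      have h1 := inr_mem_disjSum.1 (hR'.sub (inr_mem_disjSum.2 hi))
      rw [mem_singleton] at h1
      rw [h1] at hi
      exact hcon (inr_mem_disjSum.2 hi)
    subst hZ₁
    have hA' : A' ⊆ A := fun v hv => inl_mem_disjSum.1 (hR'.sub (inl_mem_disjSum.2 hv))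
    have hd : 6 ∣ (A'.disjSum (∅ : Finset (Fin 6))).card - 1 := by
      by_contra hd
      have h1 := (Pool.Agent.OX25.tgap6 T6_6 ih hT hR').2 hd
      push_cast at h1
      linarith
    have hc := Pool.Agent.OX25.small_card hR' hd
    rw [card_disjSum, card_empty, add_zero] at hc
    rw [Yy_con_empty] at hYR'
    have h1 := Y_four Nm6 h A' (hA'.trans hst.subA) (fun e => by
      have h2 := hst.sub hy
      rw [← e] at h2
      exact hyA (hA' h2)) hc
    linarith)
  obtain ⟨Q, Z₁, rfl⟩ := eq_disjSum Q'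
  have hZ₁ : Z₁ = ∅ := by
    rw [eq_empty_iff_forall_notMem]
    intro i hi
    obtain ⟨h1, h2⟩ := hQ' _ (inr_mem_disjSum.2 hi)
    have h3 := mem_singleton.1 (inr_mem_disjSum.1 h1)
    exact h2 (by rw [h3])
  subst hZ₁
  rw [card_disjSum, card_empty, add_zero] at hQc
  refine ⟨Q, ?_, hQc, ?_, ?_⟩
  · intro v hv
    exact inl_mem_disjSum.1 (hQ' _ (inl_mem_disjSum.2 hv)).1
  · intro a ha d hd had
    exact hQq (Sum.inl a) (inl_mem_disjSum.2 ha) (Sum.inl d) (inl_mem_disjSum.2 hd)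
      (fun e => had (Sum.inl_injective e))
  · intro t ht
    exact hQd _ (inl_mem_disjSum.2 ht)

/-- the table -/
def tt3 (p : ℕ) : ℤ := if p = 0 then 4 else if p = 1 then 6 else if p = 2 then 6
    else if p = 3 then 8 else if p = 4 then 10 else 8

theorem tt3_le (h : Cex G S 6 b6) (hr : (S.card - 1) % 6 = 3) {R : Finset V} (hR : R ⊆ S)
    (hne : R ≠ S) (hc : 7 ≤ R.card) : tt3 ((R.card - 1) % 6) ≤ Yy G 6 b6 R := by
  obtain ⟨t0, t1, t2, t3, t4, t5⟩ := tab3 h hr hR hne hc
  unfold tt3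
  split_ifs with g0 g1 g2 g3 g4
  · exact t0
  · exact t1 g1
  · exact t2 g2
  · exact t3 g3
  · exact t4 g4
  · exact t5 (by omega)

theorem num_p (m a s : ℕ) (h1 : 1 ≤ s) (h2 : s ≤ 6) (ha : 1 ≤ a) (hm : m % 6 = 5) :
    10 < tt3 ((m + a) % 6) + cst 6 b6 s m a ∨
      ((m + a) % 6 = 5 ∧ s = 1 ∧ cst 6 b6 s m a = 2) :=
  (by_res (P := fun p r s c => ¬ p = 5 ∨ (10 < tt3 r + c ∨ (r = 5 ∧ s = 1 ∧ c = 2))) m a s
    h1 h2 ha (by decide)).resolve_left (fun hn => hn hm)

theorem num_f (m a s : ℕ) (h1 : 1 ≤ s) (h2 : s ≤ 6) (ha : 1 ≤ a) (hm : m % 6 = 5)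
    (hr : (m + a) % 6 = 3) :
    8 < cst 6 b6 s m a ∨ (s = 1 ∧ cst 6 b6 s m a = 6) ∨ (s = 2 ∧ cst 6 b6 s m a = 8) ∨
      (s = 3 ∧ cst 6 b6 s m a = 6) :=
  (by_res (P := fun p r s c => ¬ (p = 5 ∧ r = 3) ∨ (8 < c ∨ (s = 1 ∧ c = 6) ∨
    (s = 2 ∧ c = 8) ∨ (s = 3 ∧ c = 6))) m a s h1 h2 ha
    (by decide)).resolve_left (fun hn => hn ⟨hm, hr⟩)

/-- the complement of the set is a 4-clique with at most one extra edge -/
structure Four (G : SimpleGraph V) (S R : Finset V) : Prop where
  card : (S \ R).card = 4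
  q : Clq G (S \ R)
  low : ∃ v0, ∀ v ∈ S \ R, v ≠ v0 → dg G S v = 6
  le : ∀ v ∈ S \ R, dg G S v ≤ 7

/-- the boundary colours -/
theorem col_r3 (h : Cex G S 6 b6) (hr : (S.card - 1) % 6 = 3) {R : Finset V} (hR : R ⊆ S)
    (hne : R ≠ S) (hc : 7 ≤ R.card) (hm : (R.card - 1) % 6 = 5) (hY : Yy G 6 b6 R ≤ 10)
    {ψ : V → Fin 6} (hψ : PC G R ψ) : ((bd G S R).image ψ).card ≤ 3 ∨
      (Four G S R ∧ ((bd G S R).image ψ).card ≤ 4) := by
  have hRn : R.Nonempty := card_pos.1 (by omega)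
  obtain ⟨A, Z, hst⟩ := step_exists (by omega) h.cr hR hRn hψ
  have hYe := hst.Y_eq b6 hRn
  have hQ0 : Yy (con G R ψ) 6 b6 (A.disjSum Z) ≤ 0 := by
    have := h.ih _ _ _ hst.cr (hst.Q_lt hc)
    unfold Yy
    linarith
  have hg := hst.gain_nonneg
  have hA1 : 1 ≤ A.card := card_pos.2 hst.neA
  have hcu := hst.card_union
  have e1 : (R ∪ A).card - 1 = R.card - 1 + A.card := by omega
  have hcQ := hst.card_Q
  by_cases hU : R ∪ A = S
  · have hN : (R.card - 1 + A.card) % 6 = 3 := by rw [← e1, hU]; exact hr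
    have hY2 := Y_two h
    rw [hU] at hYe
    have h4 := Pool.Agent.OK5.bd_gain hst hU
    have key : ∀ n : ℕ, (((bd G S R).image ψ).card : ℤ) ≤ n → ((bd G S R).image ψ).card ≤ n :=
      fun n hn => by exact_mod_cast hn
    rcases num_f (R.card - 1) A.card Z.card hst.Z_pos hst.Z_le hA1 hm hN with
      h1 | ⟨h1, h2⟩ | ⟨h1, h2⟩ | ⟨h1, h2⟩
    · exfalso
      linarith
    · left
      refine (key 2 ?_).trans (by omega)
      rw [h1] at h4
      push_cast at h4 ⊢
      linarith
    · left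
      refine (key 2 ?_).trans (by omega)
      rw [h1] at h4
      push_cast at h4 ⊢
      linarith
    · by_cases hg0 : gain G R ψ A Z = 0
      · left
        apply key 3
        rw [h1, hg0] at h4
        push_cast at h4 ⊢
        linarith
      · right
        have hg1 : 1 ≤ gain G R ψ A Z := by
          rcases lt_or_eq_of_le hg with h5 | h5
          · exact h5
          · exact absurd h5.symm hg0
        have hgle : gain G R ψ A Z ≤ 1 := by linarith
        have hQe : Yy (con G R ψ) 6 b6 (A.disjSum Z) = 0 := by linarith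
        have hb : ((bd G S R).image ψ).card ≤ 4 := by
          apply key 4
          rw [h1] at h4
          push_cast at h4 ⊢
          linarith
        have hAS : A = S \ R := (hst.final_card hU).1
        rcases flex_one T6_6 h.ih (fun X g1 g2 g3 => by
            linarith [Y_four Nm6 h X g1 g2 g3]) hst hRn (hst.Q_lt hc) hU hgle
            (by rw [hcQ, h1]; omega) hQe with ⟨g1, g2, g3, g4, -⟩ | ⟨Q, g1, g2, g3, g4⟩
        · refine ⟨⟨?_, ?_, ?_, ?_⟩, hb⟩
          · rw [← hAS]; omega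
          · rw [← hAS]; exact g2
          · rw [← hAS]; exact g3
          · rw [← hAS]; exact g4
        · exfalso
          have h5 := low3 h (by omega) Q (g1.trans hst.subA) g3 g2
          have h6 : (Q.filter fun t => dg G S t = 6).card +
              (Q.filter fun t => ¬ dg G S t = 6).card = 6 := by
            rw [card_filter_add_card_filter_not, g2]
          omega
  · exfalso
    have h2 := tt3_le h hr hst.sub_union hU (by omega)
    rw [e1] at h2
    rcases num_p (R.card - 1) A.card Z.card hst.Z_pos hst.Z_le hA1 hm with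
      h1 | ⟨h1, h3, h4⟩
    · linarith
    · rw [h1] at h2
      have e5 : tt3 5 = 8 := by decide
      rw [e5] at h2
      have hg0 : gain G R ψ A Z = 0 := by linarith
      have hQe : Yy (con G R ψ) 6 b6 (A.disjSum Z) = 0 := by linarith
      have hYU : Yy G 6 b6 (R ∪ A) ≤ 8 := by linarith
      obtain ⟨c, rfl⟩ := card_eq_one.1 h3
      obtain ⟨Q, g1, g2, g3, g4⟩ := em_piece h hst hRn (hst.Q_lt hc)
        (by rw [hcQ, h3]; omega) hQe
      have hlow := low_r3_5 h hr hst.sub_union hU (by omega) (by rw [e1]; exact h1) hYU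
      refine em6 h (by omega) hst.sub_union hlow (Or.inr rfl)
        (g1.trans subset_union_right) g2 g3 ?_
      intro t ht
      rw [← hst.gain_zero_dg hg0 (g1 ht), g4 t ht]

end Pool.Agent.OX63
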