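import Pool.Agent.Lib_helper63.OX.C1c

/-!
# Six colours, residue 3: no clone set with `Y = 10`
-/

set_option autoImplicit false
set_option linter.unusedSectionVars false
set_option linter.unusedVariables false

open scoped Classical
open Finset
open Pool.Agent.O2 (PC Cb CrOn pr ms dg nd addE)
open Pool.Agent.O3 (con hit Clq Non)
open Pool.Agent.OW28 (NoCE Add1)
open Pool.Agent.OW
open Pool.Agent.OX28
open Pool.Agent.OX22

namespace Pool.Agent.OX63

variable {V : Type} {K : ℕ} {G : SimpleGraph V} {S X T : Finset V} {w : V}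

/-- (0) a boundary vertex off `T` with a colour off `B` leaves only one further colour off `T` -/
theorem zero_col (e : Em G S K X T w) (hL : 3 ≤ (Lp G S X T).card)
    (hcol : ∀ ψ : V → Fin K, PC G X ψ →
      ((bd G S X).image ψ).card ≤ (Bp G S X T).card + 1)
    {ψ : V → Fin K} (hψ : PC G X ψ) {y y' : V} (hy : y ∈ bd G S X) (hyT : y ∉ T)
    (hyB : ψ y ∉ (Bp G S X T).image ψ) (hy' : y' ∈ bd G S X) (hyT' : y' ∉ T)
    (hne : ψ y' ≠ ψ y) (hnw : ψ y' ≠ ψ w) : False := by
  by_cases hB' : ψ y' ∈ (Bp G S X T).image ψ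
  · obtain ⟨b, hb, hby⟩ := mem_image.1 hB'
    obtain ⟨hbT, hbb⟩ := mem_Bp.1 hb
    obtain ⟨t0, ht0, ht0c⟩ := clq_surj hψ e.TX e.q e.cT (ψ y)
    have hLe : 2 ≤ ((Lp G S X T).erase t0).card := by
      have := pred_card_le_card_erase (s := Lp G S X T) (a := t0)
      omega
    obtain ⟨t, ht, hal⟩ := e.allow hψ hbT
      ((erase_subset t0 _).trans (filter_subset _ _)) hLe
    obtain ⟨htt, htL⟩ := mem_erase.1 ht
    obtain ⟨htT, htb⟩ := mem_Lp.1 htL
    have h4 := hcol _ (e.exch hψ hbT (by rw [hby]; exact hnw) htL hal)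
    have h5 := card_le_card (e.exch_bd (ψ := ψ) hb htL)
    have hty : ψ t ≠ ψ y := by
      rw [← ht0c]
      intro h6
      exact htt (clq_inj hψ e.TX e.q (mem_coe.2 htT) (mem_coe.2 ht0) h6)
    have htB : ψ t ∉ (Bp G S X T).image ψ := by
      intro hc
      obtain ⟨c, hc1, hc2⟩ := mem_image.1 hc
      obtain ⟨hcT, hcb⟩ := mem_Bp.1 hc1
      have := clq_inj hψ e.TX e.q (mem_coe.2 hcT) (mem_coe.2 htT) hc2
      exact htb (this ▸ hcb)
    have h6 : insert (ψ t) (insert (ψ y) ((Bp G S X T).image ψ)) ⊆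
        (((Bp G S X T).image ψ).erase (ψ b) ∪ {ψ t}) ∪ (((bd G S X) \ T).image ψ) := by
      intro i hi
      rw [mem_union, mem_union, mem_erase, mem_singleton]
      rcases mem_insert.1 hi with rfl | hi
      · exact Or.inl (Or.inr rfl)
      · rcases mem_insert.1 hi with rfl | hi
        · exact Or.inr (mem_image.2 ⟨y, mem_sdiff.2 ⟨hy, hyT⟩, rfl⟩)
        · by_cases h7 : i = ψ b
          · right
            rw [h7, hby]
            exact mem_image.2 ⟨y', mem_sdiff.2 ⟨hy', hyT'⟩, rfl⟩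
          · exact Or.inl (Or.inl ⟨h7, hi⟩)
    have h7 := card_le_card h6
    rw [card_insert_of_notMem, card_insert_of_notMem hyB, e.Bimg hψ] at h7
    · omega
    · rw [mem_insert, not_or]
      exact ⟨hty, htB⟩
  · have h1 : insert (ψ y') (insert (ψ y) ((Bp G S X T).image ψ)) ⊆ (bd G S X).image ψ := by
      intro i hi
      rcases mem_insert.1 hi with rfl | hi
      · exact mem_image_of_mem ψ hy'
      · rcases mem_insert.1 hi with rfl | hi
        · exact mem_image_of_mem ψ hy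
        · exact Em.Bsub ψ hi
    have h2 := card_le_card h1
    have h3 := hcol ψ hψ
    rw [card_insert_of_notMem, card_insert_of_notMem hyB, e.Bimg hψ] at h2
    · omega
    · rw [mem_insert, not_or]
      exact ⟨hne, hB'⟩

/-- three colours off `T` are colours of `B` -/
theorem three_B (e : Em G S K X T w) (hL : 3 ≤ (Lp G S X T).card)
    (hcol : ∀ ψ : V → Fin K, PC G X ψ →
      ((bd G S X).image ψ).card ≤ (Bp G S X T).card + 1)
    {ψ : V → Fin K} (hψ : PC G X ψ) {N : Finset V} (hN : N ⊆ bd G S X)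
    (hNT : ∀ y ∈ N, y ∉ T) (h3 : 3 ≤ (N.image ψ).card) :
    N.image ψ ⊆ (Bp G S X T).image ψ := by
  intro i hi
  obtain ⟨y, hy, rfl⟩ := mem_image.1 hi
  by_contra hyB
  have h1 : N.image ψ ⊆ {ψ y, ψ w} := by
    intro j hj
    obtain ⟨y', hy', rfl⟩ := mem_image.1 hj
    rw [mem_insert, mem_singleton]
    by_contra hcon
    push Not at hcon
    exact zero_col e hL hcol hψ (hN hy) (hNT y hy) hyB (hN hy') (hNT y' hy') hcon.1 hcon.2
  have h2 := (card_le_card h1).trans (card_le_two (a := ψ y) (b := ψ w))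
  omega

/-- a set off `T` with always three colours is impossible -/
theorem no_off (hK : 0 < K) (hS : CrOn G S K) (hne : X ≠ S) (e : Em G S K X T w)
    (hL : 3 ≤ (Lp G S X T).card) (hB : (Bp G S X T).card = 3)
    (hcol : ∀ ψ : V → Fin K, PC G X ψ →
      ((bd G S X).image ψ).card ≤ (Bp G S X T).card + 1)
    {N : Finset V} (hN : N ⊆ bd G S X) (hNT : ∀ y ∈ N, y ∉ T)
    (h3 : ∀ ψ : V → Fin K, PC G X ψ → 3 ≤ (N.image ψ).card) : False := by
  obtain ⟨ψ, hψ⟩ := (Pool.Agent.O2.cb_fin hK).1 (hS.sub e.XS hne)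
  have h1 := three_B e hL hcol hψ hN hNT (h3 ψ hψ)
  have h2 : N.image ψ = (Bp G S X T).image ψ :=
    eq_of_subset_of_card_le h1 (by rw [e.Bimg hψ, hB]; exact h3 ψ hψ)
  obtain ⟨b, hb, hbw⟩ : ∃ b ∈ Bp G S X T, ψ b ≠ ψ w := by
    by_contra hcon
    push Not at hcon
    have h4 : (Bp G S X T).image ψ ⊆ {ψ w} := by
      intro i hi
      obtain ⟨b, hb, rfl⟩ := mem_image.1 hi
      rw [mem_singleton]
      exact hcon b hb
    have h5 := card_le_card h4
    rw [e.Bimg hψ, hB, card_singleton] at h5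
    omega
  obtain ⟨hbT, hbb⟩ := mem_Bp.1 hb
  obtain ⟨t, ht, hal⟩ := e.allow hψ hbT (L := Lp G S X T) (filter_subset _ _) (by omega)
  obtain ⟨htT, htb⟩ := mem_Lp.1 ht
  have hψ' := e.exch hψ hbT hbw ht hal
  have hsame : ∀ y, y ∉ T → ψ (Equiv.swap b t y) = ψ y := by
    intro y hy
    have g1 : y ≠ b := fun h => hy (h ▸ hbT)
    have g2 : y ≠ t := fun h => hy (h ▸ htT)
    rw [Equiv.swap_apply_of_ne_of_ne g1 g2]
  have h4 := three_B e hL hcol hψ' hN hNT (h3 _ hψ')
  have h5 : ψ b ∈ N.image ψ := by rw [h2]; exact mem_image_of_mem ψ hb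
  obtain ⟨y, hy, hyb⟩ := mem_image.1 h5
  have h6 : ψ b ∈ (Bp G S X T).image (fun a => ψ (Equiv.swap b t a)) := by
    apply h4
    refine mem_image.2 ⟨y, hy, ?_⟩
    show ψ (Equiv.swap b t y) = ψ b
    rw [hsame y (hNT y hy), hyb]
  obtain ⟨c, hc, hcb⟩ := mem_image.1 h6
  obtain ⟨hcT, hcbd⟩ := mem_Bp.1 hc
  by_cases h7 : c = b
  · simp only [h7, Equiv.swap_apply_left] at hcb
    have h8 := clq_inj hψ e.TX e.q (mem_coe.2 htT) (mem_coe.2 hbT) hcb
    exact htb (h8 ▸ hbb)
  · have h8 : c ≠ t := fun h => htb (h ▸ hcbd)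
    simp only [Equiv.swap_apply_of_ne_of_ne h7 h8] at hcb
    exact h7 (clq_inj hψ e.TX e.q (mem_coe.2 hcT) (mem_coe.2 hbT) hcb)

/-- the colours around a 4-clique with one extra edge -/
theorem four_col {R : Finset V} (hS : CrOn G S 6) (hR : R ⊆ S) (hc : (S \ R).card = 4) {a0 : V}
    (h3 : ∀ a ∈ S \ R, a ≠ a0 → (R.filter fun y => G.Adj a y).card = 3)
    (h4 : a0 ∈ S \ R → (R.filter fun y => G.Adj a0 y).card ≤ 4)
    {ψ : V → Fin 6} (hψ : PC G R ψ) :
    ∃ Z : Finset (Fin 6), Z.card = 3 ∧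
      (∀ a ∈ S \ R, a ≠ a0 → (R.filter fun y => G.Adj a y).image ψ = Z) ∧
      (a0 ∈ S \ R → Z ⊆ (R.filter fun y => G.Adj a0 y).image ψ) := by
  have e : S \ (S \ R) = R := Finset.sdiff_sdiff_eq_self hR
  have hcomp : ∀ Y : Finset (Fin 6), (Yᶜ).card + Y.card = 6 := by
    intro Y
    rw [card_compl, Fintype.card_fin]
    have := card_le_univ Y
    rw [Fintype.card_fin] at this
    omega
  have hL3 : ∀ a ∈ S \ R, a ≠ a0 → 3 ≤ (((R.filter fun y => G.Adj a y).image ψ)ᶜ).card := by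
    intro a ha hne
    have h5 := hcomp ((R.filter fun y => G.Adj a y).image ψ)
    have h6 : ((R.filter fun y => G.Adj a y).image ψ).card ≤
        (R.filter fun y => G.Adj a y).card := card_image_le
    have h7 := h3 a ha hne
    omega
  have hU : ((S \ R).biUnion fun a => ((R.filter fun y => G.Adj a y).image ψ)ᶜ).card < 4 := by
    by_contra hlt
    push Not at hlt
    obtain ⟨f, hf, hfi⟩ := sdr (M := S \ R)
      (L := fun a => ((R.filter fun y => G.Adj a y).image ψ)ᶜ) (by omega) (a := a0) (by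
        intro m hm hne
        have := hL3 m hm hne
        show (S \ R).card ≤ (((R.filter fun y => G.Adj m y).image ψ)ᶜ).card + 1
        omega) (by
        intro hm
        show (((R.filter fun y => G.Adj a0 y).image ψ)ᶜ).Nonempty
        rw [← card_pos]
        have h5 := hcomp ((R.filter fun y => G.Adj a0 y).image ψ)
        have h6 : ((R.filter fun y => G.Adj a0 y).image ψ).card ≤
          (R.filter fun y => G.Adj a0 y).card := card_image_le
        have h7 := h4 hm
        omega) (by rw [hc]; exact hlt)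
    apply hS.1
    apply Pool.Agent.O2.cb_of_pc (φ := fun a => if a ∈ S \ R then f a else ψ a)
    refine extend sdiff_subset (by rw [e]; exact hψ) (fun m hm => ?_) hfi
    rw [e]
    exact mem_compl.1 (hf m hm)
  have hsub : ∀ a ∈ S \ R, ((R.filter fun y => G.Adj a y).image ψ)ᶜ ⊆
      (S \ R).biUnion fun a => ((R.filter fun y => G.Adj a y).image ψ)ᶜ := fun a ha =>
    subset_biUnion_of_mem (fun a => ((R.filter fun y => G.Adj a y).image ψ)ᶜ) ha
  have heq : ∀ a ∈ S \ R, a ≠ a0 → ((R.filter fun y => G.Adj a y).image ψ)ᶜ =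
      (S \ R).biUnion fun a => ((R.filter fun y => G.Adj a y).image ψ)ᶜ := fun a ha hne =>
    eq_of_subset_of_card_le (hsub a ha) (by have := hL3 a ha hne; omega)
  obtain ⟨a1, ha1⟩ : ∃ a1, a1 ∈ (S \ R).erase a0 := by
    apply card_pos.1
    have := pred_card_le_card_erase (s := S \ R) (a := a0)
    omega
  obtain ⟨ha10, ha1S⟩ := mem_erase.1 ha1
  refine ⟨((S \ R).biUnion fun a => ((R.filter fun y => G.Adj a y).image ψ)ᶜ)ᶜ, ?_, ?_, ?_⟩
  · have h5 := hcomp ((S \ R).biUnion fun a => ((R.filter fun y => G.Adj a y).image ψ)ᶜ)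
    have h6 := heq a1 ha1S ha10
    have h7 := hL3 a1 ha1S ha10
    rw [h6] at h7
    omega
  · intro a ha hne
    rw [← heq a ha hne, compl_compl]
  · intro ha
    have h5 := compl_subset_compl.2 (hsub a0 ha)
    rwa [compl_compl] at h5

end Pool.Agent.OX63
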