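import Pool.Agent.Lib_helper63.OX.C1d

/-!
# Six colours, residue 3: no clone set with `Y = 10`, end
-/

set_option autoImplicit false
set_option linter.unusedSectionVars false
set_option linter.unusedVariables false

open scoped Classical
open Finset
open Pool.Agent.O2 (PC Cb CrOn pr ms dg nd addE)
open Pool.Agent.O3 (con hit Clq Non)
open Pool.Agent.OW28 (NoCE Add1)
open Pool.Agent.OW
open Pool.Agent.OX28
open Pool.Agent.OX22

namespace Pool.Agent.OX63

variable {V : Type} {G : SimpleGraph V} {S : Finset V}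

/-- the complement has four vertices -/
theorem four_end (h : Cex G S 6 b6) (hr : (S.card - 1) % 6 = 3) {x v w : V} {R T : Finset V}
    (p : P1 G S x v) (c : Cs G S x v R) (e : Em G S 6 R T w)
    (hL : 3 ≤ (Lp G S R T).card) (hB : (Bp G S R T).card = 3)
    (hcol : ∀ ψ : V → Fin 6, PC G R ψ → ((bd G S R).image ψ).card ≤ (Bp G S R T).card + 1)
    (F : Four G S R) (hTcn : ∀ t ∈ T, t ∉ Pool.Agent.OW.cn G S v x)
    (hTd : ∀ t ∈ T, dg G R t = 6) : False := by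
  obtain ⟨hc4, hq, ⟨v0, hlow⟩, hle⟩ := F
  have hRS := c.RS
  have hne := c.ne
  -- one vertex is not low
  have hv0 : v0 ∈ S \ R ∧ dg G S v0 ≠ 6 := by
    by_contra hcon
    have hall : ∀ a ∈ S \ R, dg G S a = 6 := by
      intro a ha
      by_cases h1 : a = v0
      · by_contra h2
        exact hcon ⟨h1 ▸ ha, h1 ▸ h2⟩
      · exact hlow a ha h1
    exact Pool.Agent.OX63.em6 h (by omega) hRS ⟨hc4, hq, hall⟩ (Or.inr rfl) e.TX e.cT e.q
      (fun t ht => (hTd t ht).le)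
  obtain ⟨hv0A, hv0d⟩ := hv0
  have hv07 : dg G S v0 = 7 := by
    have h1 := hle v0 hv0A
    have h2 := h.cr.dg_ge (mem_sdiff.1 hv0A).1
    omega
  -- degrees into `R`
  have hdeg : ∀ a ∈ S \ R, (R.filter fun y => G.Adj a y).card + 3 = dg G S a := by
    intro a ha
    have h1 := out_card (M := S \ R) sdiff_subset hq ha
    rw [Finset.sdiff_sdiff_eq_self hRS, hc4] at h1
    omega
  have hd3 : ∀ a ∈ S \ R, a ≠ v0 → (R.filter fun y => G.Adj a y).card = 3 := by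
    intro a ha hav
    have h1 := hdeg a ha
    rw [hlow a ha hav] at h1
    omega
  have hd4 : (R.filter fun y => G.Adj v0 y).card = 4 := by
    have h1 := hdeg v0 hv0A
    omega
  have hcolZ : ∀ ψ : V → Fin 6, PC G R ψ → ∃ Z : Finset (Fin 6), Z.card = 3 ∧
      (∀ a ∈ S \ R, a ≠ v0 → (R.filter fun y => G.Adj a y).image ψ = Z) ∧
      Z ⊆ (R.filter fun y => G.Adj v0 y).image ψ := by
    intro ψ hψ
    obtain ⟨Z, h1, h2, h3⟩ := four_col h.cr hRS hc4 hd3 (fun _ => hd4.le) hψ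
    exact ⟨Z, h1, h2, h3 hv0A⟩
  have hbd : ∀ a ∈ S \ R, ∀ y ∈ R, G.Adj a y → y ∈ bd G S R := fun a ha y hy hay =>
    mem_filter.2 ⟨hy, a, ha, hay.symm⟩
  -- (1) every low vertex of the complement has a neighbour in `T`
  have one : ∀ a ∈ S \ R, a ≠ v0 → ∃ t ∈ T, G.Adj a t := by
    intro a ha hav
    by_contra hcon
    push Not at hcon
    refine no_off (by omega) h.cr hne e hL hB hcol (N := R.filter fun y => G.Adj a y) ?_ ?_ ?_
    · intro y hy
      obtain ⟨h1, h2⟩ := mem_filter.1 hy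
      exact hbd a ha y h1 h2
    · intro y hy hyT
      exact hcon y hyT (mem_filter.1 hy).2
    · intro ψ hψ
      obtain ⟨Z, h1, h2, -⟩ := hcolZ ψ hψ
      rw [h2 a ha hav, h1]
  -- (2) `v0` is adjacent to all of `B`
  have two : ∀ b ∈ Bp G S R T, G.Adj v0 b := by
    intro b hb
    obtain ⟨hbT, hbb⟩ := mem_Bp.1 hb
    obtain ⟨hbR, a, ha, hba⟩ := mem_filter.1 hbb
    by_cases hav : a = v0
    · rw [← hav]; exact hba.symm
    by_contra hnb
    have hbw : b ≠ w := fun h1 => e.wT (h1 ▸ hbT)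
    obtain ⟨ψ, hψ, hbw'⟩ := (add_one Nm6 h).all (by omega) h.cr hRS hne hbR e.wX hbw
    obtain ⟨Z, h1, h2, h3⟩ := hcolZ ψ hψ
    have h4 : ψ b ∈ (R.filter fun y => G.Adj v0 y).image ψ := by
      apply h3
      rw [← h2 a ha hav]
      exact mem_image_of_mem ψ (mem_filter.2 ⟨hbR, hba.symm⟩)
    obtain ⟨y, hy, hyb⟩ := mem_image.1 h4
    obtain ⟨hyR, hvy⟩ := mem_filter.1 hy
    have hyne : y ≠ b := fun h5 => hnb (h5 ▸ hvy)
    have hyT : y ∉ T := fun h5 =>
      hyne (Pool.Agent.OX22.clq_inj hψ e.TX e.q (mem_coe.2 h5) (mem_coe.2 hbT) hyb)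
    obtain ⟨t, ht, hal⟩ := e.allow hψ hbT (L := Lp G S R T) (filter_subset _ _) (by omega)
    obtain ⟨htT, htb⟩ := mem_Lp.1 ht
    have hψ' := e.exch hψ hbT hbw' ht hal
    obtain ⟨Z', h1', h2', h3'⟩ := hcolZ _ hψ'
    have h5 : ψ t ∈ (R.filter fun y => G.Adj v0 y).image (fun a => ψ (Equiv.swap b t a)) := by
      apply h3'
      rw [← h2' a ha hav]
      refine mem_image.2 ⟨b, mem_filter.2 ⟨hbR, hba.symm⟩, ?_⟩
      simp only [Equiv.swap_apply_left]
    obtain ⟨y', hy', hyt⟩ := mem_image.1 h5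
    obtain ⟨hyR', hvy'⟩ := mem_filter.1 hy'
    have hyb' : y' ∈ bd G S R := hbd v0 hv0A y' hyR' hvy'
    have h6 : y' ≠ b := fun h7 => hnb (h7 ▸ hvy')
    have h7 : y' ≠ t := fun h8 => htb (h8 ▸ hyb')
    simp only [Equiv.swap_apply_of_ne_of_ne h6 h7] at hyt
    have hyT' : y' ∉ T := fun h8 =>
      h7 (Pool.Agent.OX22.clq_inj hψ e.TX e.q (mem_coe.2 h8) (mem_coe.2 htT) hyt)
    refine zero_col e hL hcol hψ hyb' hyT' ?_ (hbd v0 hv0A y hyR hvy) hyT ?_ ?_
    · rw [hyt]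
      intro hc'
      obtain ⟨d, hd1, hd2⟩ := mem_image.1 hc'
      obtain ⟨hdT, hdb⟩ := mem_Bp.1 hd1
      have := Pool.Agent.OX22.clq_inj hψ e.TX e.q (mem_coe.2 hdT) (mem_coe.2 htT) hd2
      exact htb (this ▸ hdb)
    · rw [hyb, hyt]
      intro h8
      have := Pool.Agent.OX22.clq_inj hψ e.TX e.q (mem_coe.2 hbT) (mem_coe.2 htT) h8
      exact htb (this ▸ hbb)
    · rw [hyb]
      exact hbw'
  -- (3) `v = v0`
  have hvA : v ∈ S \ R := mem_sdiff.2 ⟨p.hv, c.vR⟩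
  have hxR := c.xR
  have hxonly : ∀ a ∈ S \ R, a ≠ v → ¬ G.Adj x a := by
    intro a ha hav hxa
    obtain ⟨h1, h2⟩ := mem_sdiff.1 ha
    exact h2 (c.cn (Pool.Agent.OW.mem_cn.2 (Or.inr ⟨hav, h1, hxa⟩)))
  have hxT : x ∉ T := fun h1 => hTcn x h1 (Pool.Agent.OW.mem_cn.2 (Or.inl rfl))
  have hRc : R.card + 4 ≤ S.card := by
    have := card_sdiff_add_card_eq_card hRS
    omega
  have hvv : v = v0 := by
    by_contra hvv
    obtain ⟨a, ha⟩ : ∃ a, a ∈ ((S \ R).erase v).erase v0 := by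
      apply card_pos.1
      have h1 := pred_card_le_card_erase (s := S \ R) (a := v)
      have h2 := pred_card_le_card_erase (s := (S \ R).erase v) (a := v0)
      omega
    obtain ⟨hav0, ha'⟩ := mem_erase.1 ha
    obtain ⟨hav, haA⟩ := mem_erase.1 ha'
    obtain ⟨t1, ht1, hvt1⟩ := one v hvA hvv
    obtain ⟨t2, ht2, hat2⟩ := one a haA hav0
    have ht1R := e.TX ht1
    have ht2R := e.TX ht2
    by_cases hat1 : G.Adj a t1
    · have ht1N : t1 ∈ R.filter fun y => G.Adj a y := mem_filter.2 ⟨ht1R, hat1⟩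
      obtain ⟨ψ, hψ, hs⟩ := star2 h hr hRS hRc (N := (R.filter fun y => G.Adj a y).erase t1)
        hxR ((erase_subset _ _).trans (filter_subset _ _)) (fun h1 =>
          hxonly a haA hav ((mem_filter.1 (mem_of_mem_erase h1)).2).symm) (by
          rw [card_erase_of_mem ht1N, hd3 a haA hav0])
      obtain ⟨Z, h1, h2, h3⟩ := hcolZ ψ hψ
      have h4 : ψ x ∈ (R.filter fun y => G.Adj a y).image ψ := by
        rw [h2 a haA hav0, ← h2 v hvA hvv]
        exact mem_image_of_mem ψ (mem_filter.2 ⟨hxR, p.ad.symm⟩)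
      obtain ⟨q, hq', hqx⟩ := mem_image.1 h4
      by_cases h5 : q = t1
      · rw [h5] at hqx
        have hinj : Set.InjOn ψ ((R.filter fun y => G.Adj v y : Finset V) : Set V) := by
          rw [← card_image_iff, h2 v hvA hvv, h1, hd3 v hvA hvv]
        have h6 := hinj (mem_coe.2 (mem_filter.2 ⟨ht1R, hvt1⟩))
          (mem_coe.2 (mem_filter.2 ⟨hxR, p.ad.symm⟩)) hqx
        exact hxT (h6 ▸ ht1)
      · exact hs q (mem_erase.2 ⟨h5, hq'⟩) hqx.symm
    · have ht2N : t2 ∈ R.filter fun y => G.Adj a y := mem_filter.2 ⟨ht2R, hat2⟩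
      have h12 : t1 ≠ t2 := fun h1 => hat1 (h1 ▸ hat2)
      obtain ⟨ψ, hψ, hs⟩ := star2 h hr hRS hRc (N := (R.filter fun y => G.Adj a y).erase t2)
        ht1R ((erase_subset _ _).trans (filter_subset _ _)) (fun h1 =>
          hat1 (mem_filter.1 (mem_of_mem_erase h1)).2) (by
          rw [card_erase_of_mem ht2N, hd3 a haA hav0])
      obtain ⟨Z, h1, h2, h3⟩ := hcolZ ψ hψ
      have h4 : ψ t1 ∈ (R.filter fun y => G.Adj a y).image ψ := by
        rw [h2 a haA hav0, ← h2 v hvA hvv]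
        exact mem_image_of_mem ψ (mem_filter.2 ⟨ht1R, hvt1⟩)
      obtain ⟨q, hq', hqx⟩ := mem_image.1 h4
      by_cases h5 : q = t2
      · rw [h5] at hqx
        exact hψ t1 ht1R t2 ht2R (e.q t1 ht1 t2 ht2 h12) hqx.symm
      · exact hs q (mem_erase.2 ⟨h5, hq'⟩) hqx.symm
  -- (4) the twin of `x`
  have hv7 : dg G S v = 7 := by rw [hvv]; exact hv07
  obtain ⟨x2, hx2⟩ : ∃ x2, x2 ∈ tws G S x := by
    apply card_pos.1
    have := p.hd
    omega
  obtain ⟨hx2S, hx2x, hx2t⟩ := mem_filter.1 hx2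
  have hx2v : x2 ≠ v := by
    rintro rfl
    exact p.nt hx2t
  have hx2c : x2 ∈ Pool.Agent.OW.cn G S v x :=
    Pool.Agent.OW.mem_cn.2 (Or.inr ⟨hx2v, hx2S, hx2t.1⟩)
  have hx2R := c.cn hx2c
  have hx2T : x2 ∉ T := fun h1 => hTcn x2 h1 hx2c
  have hx2a : G.Adj x2 v := (hx2t.2 v p.hv p.ad.ne' hx2v.symm).1 p.ad
  have h1 : insert x (insert x2 (Bp G S R T)) ⊆ R.filter fun y => G.Adj v0 y := by
    intro y hy
    rcases mem_insert.1 hy with rfl | hy
    · exact mem_filter.2 ⟨hxR, by rw [← hvv]; exact p.ad.symm⟩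
    · rcases mem_insert.1 hy with rfl | hy
      · exact mem_filter.2 ⟨hx2R, by rw [← hvv]; exact hx2a.symm⟩
      · exact mem_filter.2 ⟨e.TX (mem_Bp.1 hy).1, two y hy⟩
  have h2 := card_le_card h1
  rw [card_insert_of_notMem, card_insert_of_notMem, hB, hd4] at h2
  · omega
  · exact fun h3 => hx2T (mem_Bp.1 h3).1
  · rw [mem_insert, not_or]
    exact ⟨hx2x.symm, fun h3 => hxT (mem_Bp.1 h3).1⟩

/-- residue 3: no clone set with `Y = 10` -/
theorem c1_r3_10 (h : Cex G S 6 b6) (hr : (S.card - 1) % 6 = 3) {x v : V} {R : Finset V}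
    (p : P1 G S x v) (c : Cs G S x v R) (hno : ¬ Clq G (Pool.Agent.OW.cn G S v x))
    (hY : 8 < Yy G 6 b6 R) : False := by
  obtain ⟨hm, hY8, hY10⟩ := cs_r3 h hr c
  have hev := Yev Nm6 G (X := R) (card_pos.1 (by have := c.card; omega))
  obtain ⟨T, hT, hTc, hTq, hTcn, hTd⟩ := c.emerald h p hno hm (by omega)
  have hRS := c.RS
  have hne := c.ne
  have hcol : ∀ ψ : V → Fin 6, PC G R ψ → ((bd G S R).image ψ).card ≤ 3 ∨
      (Four G S R ∧ ((bd G S R).image ψ).card ≤ 4) := fun ψ hψ =>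
    col_r3 h hr hRS hne c.card hm hY10 hψ
  have hcol4 : ∀ ψ : V → Fin 6, PC G R ψ → ((bd G S R).image ψ).card ≤ 4 := by
    intro ψ hψ
    rcases hcol ψ hψ with h1 | h1
    · omega
    · exact h1.2
  obtain ⟨ψ0, hψ0⟩ := (Pool.Agent.O2.cb_fin (by omega)).1 (h.cr.sub hRS hne)
  have hB4 : (Bp G S R T).card ≤ 4 := by
    have h1 : ((Bp G S R T).image ψ0).card = (Bp G S R T).card := by
      apply card_image_of_injOn
      intro a ha b hb hab
      exact Pool.Agent.OX22.clq_inj hψ0 hT hTq (mem_coe.2 (mem_Bp.1 (mem_coe.1 ha)).1)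
        (mem_coe.2 (mem_Bp.1 (mem_coe.1 hb)).1) hab
    rw [← h1]
    refine (card_le_card (image_subset_image ?_)).trans (hcol4 ψ0 hψ0)
    intro a ha
    exact (mem_Bp.1 ha).2
  have hsum := Lp_Bp (G := G) (S := S) (X := R) (T := T)
  obtain ⟨⟨w, e⟩, hlow⟩ := mk_em h.cr (by omega) (add_one Nm6 h) hRS hT hTc hTq
    (fun t ht => (hTd t ht).le) (card_pos.1 (by omega))
  have hL3 : (Lp G S R T).card ≤ 3 := by
    refine (card_le_card ?_).trans (low3 h (by omega) T (hT.trans hRS) hTq hTc)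
    intro t ht
    exact mem_filter.2 ⟨(mem_Lp.1 ht).1, hlow t ht⟩
  have hxT : x ∉ T := fun h1 => hTcn x h1 (Pool.Agent.OW.mem_cn.2 (Or.inl rfl))
  have hxb : x ∈ bd G S R := mem_filter.2 ⟨c.xR, v, mem_sdiff.2 ⟨p.hv, c.vR⟩, p.ad⟩
  -- if `T` has all boundary colours
  have hsat : ¬ ∀ ψ : V → Fin 6, PC G R ψ →
      ((bd G S R).image ψ).card ≤ (Bp G S R T).card := by
    intro hall
    have hxw := e.sat_w (by omega) h.cr (add_one Nm6 h) hne (by omega) hall hxb hxT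
    obtain ⟨t, ht⟩ := card_pos.1 (show 0 < (Lp G S R T).card by omega)
    obtain ⟨htT, htb⟩ := mem_Lp.1 ht
    have h1 := (e.lw t htT htb).1
    rw [← hxw] at h1
    exact hTcn t htT (Pool.Agent.OW.mem_cn.2 (Or.inr
      ⟨fun h2 => c.vR (h2 ▸ hT htT), hRS (hT htT), h1.symm⟩))
  have hB3 : (Bp G S R T).card = 3 := by
    by_contra hn
    exact hsat (fun ψ hψ => (hcol4 ψ hψ).trans (by omega))
  push Not at hsat
  obtain ⟨ψ1, hψ1, hlt⟩ := hsat
  rcases hcol ψ1 hψ1 with h1 | ⟨F, -⟩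
  · omega
  · exact four_end h hr p c e (by omega) hB3 (fun ψ hψ => (hcol4 ψ hψ).trans (by omega)) F
      hTcn hTd

/-- residue 3: every clone set has `Y = 8` -/
theorem cs_r3_8 (h : Cex G S 6 b6) (hr : (S.card - 1) % 6 = 3) {x v : V} {R : Finset V}
    (p : P1 G S x v) (c : Cs G S x v R) (hno : ¬ Clq G (Pool.Agent.OW.cn G S v x)) :
    (R.card - 1) % 6 = 5 ∧ Yy G 6 b6 R ≤ 8 := by
  refine ⟨(cs_r3 h hr c).1, ?_⟩
  by_contra hlt
  exact c1_r3_10 h hr p c hno (by omega)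

/-- (c1), residue 3, from the case `Y = 8` -/
theorem c1_r3_of (h : Cex G S 6 b6) (hr : (S.card - 1) % 6 = 3)
    (h8 : ∀ (x v : V) (R : Finset V), P1 G S x v → Cs G S x v R → (R.card - 1) % 6 = 5 →
      Yy G 6 b6 R ≤ 8 → ¬ Clq G (Pool.Agent.OW.cn G S v x) → False) {x v : V}
    (p : P1 G S x v) : Clq G (Pool.Agent.OW.cn G S v x) := by
  by_contra hno
  rcases clone6 h p with h1 | ⟨R, c⟩
  · exact hno h1
  · obtain ⟨h1, h2⟩ := cs_r3_8 h hr p c hno
    exact h8 x v R p c h1 h2 hno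

end Pool.Agent.OX63
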